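import Pool.Agent.Q107.ClawPD.Upper
import Pool.Agent.Q107.ClawPD.Lower

/-!
# `k_min(r) = ⌊r / 2⌋` for the `k`-power domination bound in claw-free `r`-regular graphs

The definitions of the statement are in `Pool.Agent.Q107.ClawPD.Defs`.
-/

set_option autoImplicit false

namespace Pool.Agent.Results.MP_19e396_co.ExactValue

open Pool.Agent.Q107.ClawPD

/-- For every `r ≥ 3`, the least positive integer `k` such that `γ_{P,k}(G) ≤ n / (r + 1)` for every
connected claw-free `r`-regular graph `G` of order `n` is `⌊r / 2⌋`. -/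
theorem result (r : ℕ) (hr : 3 ≤ r) :
    IsLeast {k : ℕ | 0 < k ∧ ∀ (V : Type) (_ : Finite V) (G : SimpleGraph V), G.Connected →
      ClawFree G → (∀ v, (G.neighborSet v).ncard = r) →
        (powerNumber G k : ℝ) ≤ (Nat.card V : ℝ) / (r + 1)} (r / 2) := by
  refine ⟨⟨by omega, ?_⟩, ?_⟩
  · intro V _ G hcon hclaw hreg
    have : Nonempty V := hcon.nonempty
    obtain ⟨S, hS, hle⟩ := upper (k := r / 2) (by omega) (by omega) hreg hclaw
    have h1 : powerNumber G (r / 2) ≤ S.ncard := Nat.sInf_le ⟨S, rfl, hS⟩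
    have h2 : (0 : ℝ) < (r : ℝ) + 1 := by positivity
    rw [le_div_iff₀ h2]
    have h3 : powerNumber G (r / 2) * (r + 1) ≤ Nat.card V :=
      (Nat.mul_le_mul_right _ h1).trans hle
    exact_mod_cast h3
  · rintro k ⟨hk0, hk⟩
    by_contra hlt
    push Not at hlt
    obtain ⟨V, hV, G, hcon, hclaw, hreg, hcard, htwo⟩ := lower r k hk0 hlt
    have h1 := hk V hV G hcon hclaw hreg
    have hne : {m | ∃ S : Set V, S.ncard = m ∧ PowerDominating G k S}.Nonempty := by
      refine ⟨_, Set.univ, rfl, powerDominating_of_closed fun M hM _ => ?_⟩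
      exact Set.eq_univ_of_forall fun v => hM (Or.inl (Set.mem_univ v))
    obtain ⟨S, hSc, hS⟩ := Nat.sInf_mem hne
    have h2 : 2 ≤ powerNumber G k := by
      unfold powerNumber
      rw [← hSc]
      exact htwo S hS
    have h3 : (0 : ℝ) < (r : ℝ) + 1 := by positivity
    rw [le_div_iff₀ h3] at h1
    have h4 : powerNumber G k * (r + 1) ≤ Nat.card V := by exact_mod_cast h1
    nlinarith

end Pool.Agent.Results.MP_19e396_co.ExactValue
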